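import Mathlib

set_option autoImplicit false

namespace Pool.Agent.Helper808.Ell2

open MeasureTheory ENNReal

/-- `Y` contains a copy of `Z`: there is a bounded linear operator from `Z` to `Y` that is bounded
below (an isomorphism onto its image). -/
def Copy (𝕜 Z Y : Type*) [RCLike 𝕜] [NormedAddCommGroup Z] [NormedSpace 𝕜 Z]
    [NormedAddCommGroup Y] [NormedSpace 𝕜 Y] : Prop :=
  ∃ T : Z →L[𝕜] Y, ∃ c : ℝ, 0 < c ∧ ∀ z : Z, c * ‖z‖ ≤ ‖T z‖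

/-- The Lebesgue-Bochner space `L¹([0,1], X)`. -/
noncomputable abbrev L1 (X : Type*) [NormedAddCommGroup X] := Lp X 1 (volume : Measure unitInterval)

/-- The space `ℓ²(X)`. -/
abbrev ell2 (X : Type*) [NormedAddCommGroup X] := lp (fun _ : ℕ => X) 2

/-- `L¹([0,1], X)` contains a copy of `ℓ²(X)`. -/
def Diestel (𝕜 X : Type) [RCLike 𝕜] [NormedAddCommGroup X] [NormedSpace 𝕜 X] : Prop :=
  Copy 𝕜 (ell2 X) (L1 X)

/-- `X` contains a copy of `ℓᵖ(X)`. -/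
def ContainsLp (𝕜 X : Type) [RCLike 𝕜] [NormedAddCommGroup X] [NormedSpace 𝕜 X] (p : ℝ≥0∞)
    [Fact (1 ≤ p)] : Prop :=
  Copy 𝕜 (lp (fun _ : ℕ => X) p) X

/-- `X` contains a copy of `c₀(X)`. -/
def ContainsC0 (𝕜 X : Type) [RCLike 𝕜] [NormedAddCommGroup X] [NormedSpace 𝕜 X] : Prop :=
  Copy 𝕜 (ZeroAtInftyContinuousMap ℕ X) X

/-- `L¹([0,1], X)` contains a copy of `ℓ²(X)` for `X = ℓᵖ(Y)`. -/
def DiestelLp (𝕜 Y : Type) [RCLike 𝕜] [NormedAddCommGroup Y] [NormedSpace 𝕜 Y] (p : ℝ≥0∞)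
    [Fact (1 ≤ p)] : Prop :=
  Diestel 𝕜 (lp (fun _ : ℕ => Y) p)

/-- `L¹([0,1], X)` contains a copy of `ℓ²(X)` for `X = c₀(Y)`. -/
def DiestelC0 (𝕜 Y : Type) [RCLike 𝕜] [NormedAddCommGroup Y] [NormedSpace 𝕜 Y] : Prop :=
  Diestel 𝕜 (ZeroAtInftyContinuousMap ℕ Y)

end Pool.Agent.Helper808.Ell2
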