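import Pool.Agent.Helper808.Ell2.Defs

set_option autoImplicit false

namespace Pool.Agent.Helper808.Ell2

open MeasureTheory ENNReal

/-- A sequence of random variables on `[0,1]` with `P(ξ > s) = s⁻²`, pairwise independent. -/
def Pareto (ξ : ℕ → unitInterval → ℝ) : Prop :=
  (∀ n, Measurable (ξ n)) ∧ (∀ n t, 1 ≤ ξ n t) ∧
  (∀ n, ∀ s : ℝ, 1 ≤ s → (volume : Measure unitInterval).real {t | s < ξ n t} = (s ^ 2)⁻¹) ∧
  (∀ n m, n ≠ m → ∀ s r : ℝ, 1 ≤ s → 1 ≤ r →
    (volume : Measure unitInterval).real {t | s < ξ n t ∧ r < ξ m t} = (s ^ 2)⁻¹ * (r ^ 2)⁻¹)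

namespace JF1

/-- the quantile function -/
noncomputable def parH (u : unitInterval) : ℝ := max 1 (Real.sqrt (u : ℝ))⁻¹

theorem parH_meas : Measurable parH := by
  unfold parH
  exact measurable_const.max ((Real.continuous_sqrt.measurable.comp measurable_subtype_coe).inv)

theorem parH_set (s : ℝ) (hs : 1 ≤ s) :
    {u : unitInterval | s < parH u} =
      Set.Ioo (0 : unitInterval) ⟨(s ^ 2)⁻¹, by positivity, inv_le_one_of_one_le₀ (by nlinarith)⟩ := by
  ext u
  simp only [Set.mem_setOf_eq, Set.mem_Ioo]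
  have hs0 : 0 < s := by linarith
  have h1 : s < parH u ↔ s < (Real.sqrt (u : ℝ))⁻¹ := by
    unfold parH
    rw [lt_max_iff]
    constructor
    · rintro (h | h)
      · linarith
      · exact h
    · intro h
      exact Or.inr h
  rw [h1]
  rcases (show (0:ℝ) ≤ (u:ℝ) from u.2.1).eq_or_lt with h0 | h0
  · have hu0 : u = 0 := Subtype.ext h0.symm
    constructor
    · intro h
      rw [← h0] at h
      simp at h
      linarith
    · rintro ⟨h, -⟩
      rw [hu0] at h
      exact absurd h (lt_irrefl _)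
  · have hu0 : (0 : unitInterval) < u := h0
    have hsq : 0 < Real.sqrt (u : ℝ) := Real.sqrt_pos.mpr h0
    constructor
    · intro h
      refine ⟨hu0, ?_⟩
      have h2 : Real.sqrt (u:ℝ) < s⁻¹ := by
        rw [lt_inv_comm₀ hsq hs0]
        exact h
      have h3 : (u:ℝ) < (s ^ 2)⁻¹ := by
        rw [Real.sqrt_lt' (by positivity)] at h2
        rw [← inv_pow]
        exact h2
      exact h3
    · rintro ⟨-, h⟩
      have h3 : (u:ℝ) < (s ^ 2)⁻¹ := h
      rw [lt_inv_comm₀ hs0 hsq, Real.sqrt_lt' (by positivity), inv_pow]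
      exact h3

theorem parH_vol (s : ℝ) (hs : 1 ≤ s) :
    (volume : Measure unitInterval) {u : unitInterval | s < parH u} = ENNReal.ofReal ((s ^ 2)⁻¹) := by
  rw [parH_set s hs, unitInterval.volume_Ioo]
  congr 1
  simp

theorem exists_pareto : ∃ ξ : ℕ → unitInterval → ℝ, Pareto ξ := by
  obtain ⟨f, hf, hmap⟩ := MeasureTheory.Measure.exists_measurable_map_eq
    (Measure.infinitePi (fun _ : ℕ => (volume : Measure unitInterval)))
  have hAm : ∀ s : ℝ, MeasurableSet {u : unitInterval | s < parH u} := fun s =>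
    measurableSet_lt measurable_const parH_meas
  have hξ : ∀ n, Measurable (fun t : unitInterval => parH (f t n)) := fun n =>
    parH_meas.comp ((measurable_pi_apply n).comp hf)
  refine ⟨fun n t => parH (f t n), hξ, ?_, ?_, ?_⟩
  · intro n t
    exact le_max_left _ _
  · intro n s hs
    have h1 : (volume : Measure unitInterval) {t | s < parH (f t n)} = ENNReal.ofReal ((s ^ 2)⁻¹) := by
      have h2 : {t : unitInterval | s < parH (f t n)} =
          f ⁻¹' (Set.pi (({n} : Finset ℕ) : Set ℕ) (fun _ => {u : unitInterval | s < parH u})) := by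
        ext t
        simp
      rw [h2, ← Measure.map_apply hf (MeasurableSet.pi (Finset.countable_toSet _) (fun i _ => hAm s)),
        hmap, Measure.infinitePi_pi _ (fun i _ => hAm s)]
      simp [parH_vol s hs]
    rw [Measure.real, h1, ENNReal.toReal_ofReal (by positivity)]
  · intro n m hnm s r hs hr
    have h1 : (volume : Measure unitInterval) {t | s < parH (f t n) ∧ r < parH (f t m)} =
        ENNReal.ofReal ((s ^ 2)⁻¹) * ENNReal.ofReal ((r ^ 2)⁻¹) := by
      have h2 : {t : unitInterval | s < parH (f t n) ∧ r < parH (f t m)} =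
          f ⁻¹' (Set.pi (({n, m} : Finset ℕ) : Set ℕ)
            (fun i => {u : unitInterval | (if i = n then s else r) < parH u})) := by
        ext t
        simp [hnm.symm]
      rw [h2, ← Measure.map_apply hf (MeasurableSet.pi (Finset.countable_toSet _) (fun i _ => hAm _)),
        hmap, Measure.infinitePi_pi _ (fun i _ => hAm _), Finset.prod_pair hnm]
      simp only [if_true, hnm.symm, if_false]
      rw [parH_vol s hs, parH_vol r hr]
    rw [Measure.real, h1, ENNReal.toReal_mul, ENNReal.toReal_ofReal (by positivity),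
      ENNReal.toReal_ofReal (by positivity)]

end JF1

namespace JF2

private theorem upper_tail (ξ : ℕ → unitInterval → ℝ) (hξ : Pareto ξ) (n : ℕ) (b u : ℝ)
    (hb : 0 ≤ b) (hu : 0 < u) :
    (volume : Measure unitInterval) {t | u < b * ξ n t} ≤ ENNReal.ofReal (b ^ 2 * (u ^ 2)⁻¹) := by
  rcases hb.eq_or_lt with hb0 | hb0
  · have : {t : unitInterval | u < b * ξ n t} = ∅ := by
      ext t
      simp only [Set.mem_setOf_eq, Set.mem_empty_iff_false, iff_false, not_lt]
      rw [← hb0, zero_mul]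
      exact hu.le
    rw [this]
    simp
  · have hset : {t : unitInterval | u < b * ξ n t} = {t | u / b < ξ n t} := by
      ext t
      simp only [Set.mem_setOf_eq]
      rw [div_lt_iff₀ hb0, mul_comm]
    rcases le_or_gt 1 (u / b) with h1 | h1
    · have h2 := hξ.2.2.1 n (u / b) h1
      rw [hset]
      rw [← ofReal_measureReal]
      rw [h2]
      refine ENNReal.ofReal_le_ofReal (le_of_eq ?_)
      field_simp
    · have h2 : (volume : Measure unitInterval) {t | u < b * ξ n t} ≤ 1 := prob_le_one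
      refine h2.trans ?_
      rw [← ENNReal.ofReal_one]
      refine ENNReal.ofReal_le_ofReal ?_
      have h3 : u < b := by
        rwa [div_lt_one hb0] at h1
      have h4 : u ^ 2 ≤ b ^ 2 := by nlinarith
      rw [← div_eq_mul_inv, le_div_iff₀ (by positivity)]
      linarith

private theorem upper_key (ξ : ℕ → unitInterval → ℝ) (hξ : Pareto ξ) (q : ℝ) (hq : 2 < q) :
    ∃ K : ℝ, 0 ≤ K ∧ ∀ (n : ℕ) (b : ℝ), 0 ≤ b →
      Integrable (fun t => min ((b * ξ n t) ^ q) (b * ξ n t)) volume ∧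
      ∫ t, min ((b * ξ n t) ^ q) (b * ξ n t) ≤ K * b ^ 2 := by
  have hq0 : 0 < q := by linarith
  set k : ℝ → ℝ := fun s => if s ≤ 1 then ((s ^ q⁻¹) ^ 2)⁻¹ else (s ^ 2)⁻¹ with hk
  have hkfin : ∫⁻ s in Set.Ioi (0 : ℝ), ENNReal.ofReal (k s) < ∞ := by
    have hsplit : Set.Ioi (0 : ℝ) = Set.Ioc 0 1 ∪ Set.Ioi 1 :=
      (Set.Ioc_union_Ioi_eq_Ioi zero_le_one).symm
    rw [hsplit]
    refine (lintegral_union_le _ _ _).trans_lt ?_
    refine ENNReal.add_lt_top.2 ⟨?_, ?_⟩
    · have h1 : IntegrableOn (fun s : ℝ => s ^ (-(2 * q⁻¹))) (Set.Ioc 0 1) := by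
        have h2 : (-1 : ℝ) < -(2 * q⁻¹) := by
          have : q⁻¹ < 2⁻¹ := by
            apply inv_strictAnti₀ (by norm_num) hq
          linarith
        exact (intervalIntegrable_iff_integrableOn_Ioc_of_le zero_le_one).1
          (intervalIntegral.intervalIntegrable_rpow' h2)
      have h3 := h1.lintegral_lt_top
      refine lt_of_le_of_lt (le_of_eq ?_) h3
      refine setLIntegral_congr_fun measurableSet_Ioc ?_
      intro s hs
      simp only [hk]
      rw [if_pos hs.2]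
      congr 1
      rw [Real.rpow_neg hs.1.le, mul_comm, Real.rpow_mul hs.1.le, Real.rpow_two]
    · have h1 : IntegrableOn (fun s : ℝ => s ^ (-2 : ℝ)) (Set.Ioi 1) :=
        integrableOn_Ioi_rpow_of_lt (by norm_num) zero_lt_one
      have h3 := h1.lintegral_lt_top
      refine lt_of_le_of_lt (le_of_eq ?_) h3
      refine setLIntegral_congr_fun measurableSet_Ioi ?_
      intro s hs
      have hs' : (1 : ℝ) < s := hs
      simp only [hk]
      rw [if_neg (not_le.2 hs')]
      congr 1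
      rw [Real.rpow_neg (by linarith), Real.rpow_two]
  refine ⟨(∫⁻ s in Set.Ioi (0 : ℝ), ENNReal.ofReal (k s)).toReal, ENNReal.toReal_nonneg, ?_⟩
  intro n b hb
  set g : unitInterval → ℝ := fun t => min ((b * ξ n t) ^ q) (b * ξ n t) with hg
  have hm : Measurable (fun t => b * ξ n t) := (hξ.1 n).const_mul b
  have hgm : Measurable g := (hm.pow_const q).min hm
  have hpos : ∀ t, 0 ≤ b * ξ n t := fun t => mul_nonneg hb (by linarith [hξ.2.1 n t])
  have hg0 : ∀ t, 0 ≤ g t := fun t => le_min (Real.rpow_nonneg (hpos t) q) (hpos t)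
  have hbound : ∫⁻ t, ENNReal.ofReal (g t) ≤
      ENNReal.ofReal (b ^ 2) * ∫⁻ s in Set.Ioi (0 : ℝ), ENNReal.ofReal (k s) := by
    rw [lintegral_eq_lintegral_meas_lt volume (Filter.Eventually.of_forall hg0) hgm.aemeasurable]
    rw [← lintegral_const_mul' _ _ ENNReal.ofReal_ne_top]
    refine setLIntegral_mono_ae' measurableSet_Ioi (Filter.Eventually.of_forall ?_)
    intro s hs
    have hs0 : (0 : ℝ) < s := hs
    rw [← ENNReal.ofReal_mul (by positivity)]
    simp only [hk]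
    split_ifs with h1
    · refine le_trans (measure_mono ?_) (upper_tail ξ hξ n b (s ^ q⁻¹) hb (by positivity))
      intro t ht
      have ht' : s < (b * ξ n t) ^ q := lt_of_lt_of_le (show s < g t from ht) (min_le_left _ _)
      exact (Real.rpow_inv_lt_iff_of_pos hs0.le (hpos t) hq0).2 ht'
    · refine le_trans (measure_mono ?_) (upper_tail ξ hξ n b s hb hs0)
      intro t ht
      exact lt_of_lt_of_le (show s < g t from ht) (min_le_right _ _)
  have hfin : ENNReal.ofReal (b ^ 2) * ∫⁻ s in Set.Ioi (0 : ℝ), ENNReal.ofReal (k s) < ∞ :=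
    ENNReal.mul_lt_top ENNReal.ofReal_lt_top hkfin
  refine ⟨⟨hgm.aestronglyMeasurable, ?_⟩, ?_⟩
  · rw [hasFiniteIntegral_iff_ofReal (Filter.Eventually.of_forall hg0)]
    exact hbound.trans_lt hfin
  · rw [integral_eq_lintegral_of_nonneg_ae (Filter.Eventually.of_forall hg0)
      hgm.aestronglyMeasurable]
    refine (ENNReal.toReal_mono hfin.ne hbound).trans (le_of_eq ?_)
    rw [ENNReal.toReal_mul, ENNReal.toReal_ofReal (by positivity), mul_comm]

theorem integrable_pareto (ξ : ℕ → unitInterval → ℝ) (hξ : Pareto ξ) (n : ℕ) :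
    Integrable (ξ n) volume := by
  obtain ⟨K, -, hK⟩ := upper_key ξ hξ 3 (by norm_num)
  have h := (hK n 1 zero_le_one).1
  refine h.congr (Filter.Eventually.of_forall fun t => ?_)
  have h1 := hξ.2.1 n t
  simp only [one_mul]
  refine min_eq_right ?_
  calc ξ n t = (ξ n t) ^ (1 : ℝ) := (Real.rpow_one _).symm
    _ ≤ (ξ n t) ^ (3 : ℝ) := Real.rpow_le_rpow_of_exponent_le h1 (by norm_num)

private theorem upper_pt (q : ℝ) (hq : 2 < q) (s : Finset ℕ) (x : ℕ → ℝ) (hx : ∀ n, 0 ≤ x n) :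
    (∑ n ∈ s, x n ^ q) ^ (1 / q) ≤ 1 + ∑ n ∈ s, min (x n ^ q) (x n) := by
  have hq0 : 0 < q := by linarith
  have hW : 0 ≤ ∑ n ∈ s, min (x n ^ q) (x n) :=
    Finset.sum_nonneg fun n _ => le_min (Real.rpow_nonneg (hx n) q) (hx n)
  set W := ∑ n ∈ s, min (x n ^ q) (x n) with hWdef
  have h1 : ∑ n ∈ s, x n ^ q ≤ (1 + W) ^ q := by
    have h2 : ∀ n ∈ s, x n ^ q ≤ min (x n ^ q) (x n) * (1 + W) ^ (q - 1) := by
      intro n hn
      have hyn : min (x n ^ q) (x n) ≤ W :=
        Finset.single_le_sum (f := fun n => min (x n ^ q) (x n))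
          (fun i _ => le_min (Real.rpow_nonneg (hx i) q) (hx i)) hn
      rcases le_or_gt (x n) 1 with h | h
      · have h3 : x n ^ q ≤ x n := by
          rcases (hx n).eq_or_lt with h0 | h0
          · rw [← h0, Real.zero_rpow hq0.ne']
          · calc x n ^ q ≤ x n ^ (1 : ℝ) := Real.rpow_le_rpow_of_exponent_ge h0 h (by linarith)
              _ = x n := Real.rpow_one _
        rw [min_eq_left h3]
        have h4 : (1 : ℝ) ≤ (1 + W) ^ (q - 1) := Real.one_le_rpow (by linarith) (by linarith)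
        exact le_mul_of_one_le_right (Real.rpow_nonneg (hx n) q) h4
      · have h3 : x n ≤ x n ^ q := by
          calc x n = x n ^ (1 : ℝ) := (Real.rpow_one _).symm
            _ ≤ x n ^ q := Real.rpow_le_rpow_of_exponent_le h.le (by linarith)
        rw [min_eq_right h3] at hyn ⊢
        have h4 : x n ^ q = x n * x n ^ (q - 1) := by
          rw [← Real.rpow_one_add' (hx n) (by linarith)]
          congr 1
          ring
        rw [h4]
        exact mul_le_mul_of_nonneg_left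
          (Real.rpow_le_rpow (hx n) (by linarith) (by linarith)) (hx n)
    calc ∑ n ∈ s, x n ^ q ≤ ∑ n ∈ s, min (x n ^ q) (x n) * (1 + W) ^ (q - 1) :=
          Finset.sum_le_sum h2
      _ = W * (1 + W) ^ (q - 1) := by rw [← Finset.sum_mul]
      _ ≤ (1 + W) * (1 + W) ^ (q - 1) :=
          mul_le_mul_of_nonneg_right (by linarith) (Real.rpow_nonneg (by linarith) _)
      _ = (1 + W) ^ q := by
          rw [← Real.rpow_one_add' (by linarith) (by linarith)]
          congr 1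
          ring
  calc (∑ n ∈ s, x n ^ q) ^ (1 / q) ≤ ((1 + W) ^ q) ^ (1 / q) :=
        Real.rpow_le_rpow (Finset.sum_nonneg fun n _ => Real.rpow_nonneg (hx n) q) h1
          (by positivity)
    _ = 1 + W := by
        rw [← Real.rpow_mul (by linarith), mul_one_div_cancel hq0.ne', Real.rpow_one]

theorem upper (ξ : ℕ → unitInterval → ℝ) (hξ : Pareto ξ) (q : ℝ) (hq : 2 < q) :
    ∃ K : ℝ, 0 < K ∧ ∀ (s : Finset ℕ) (a : ℕ → ℝ), (∀ n, 0 ≤ a n) →
      ∫ t, (∑ n ∈ s, (a n * ξ n t) ^ q) ^ (1 / q) ≤ K * Real.sqrt (∑ n ∈ s, a n ^ 2) := by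
  obtain ⟨K, hK0, hK⟩ := upper_key ξ hξ q hq
  have hq0 : 0 < q := by linarith
  refine ⟨1 + K, by linarith, ?_⟩
  intro s a ha
  set A := Real.sqrt (∑ n ∈ s, a n ^ 2) with hA
  have hsq : A ^ 2 = ∑ n ∈ s, a n ^ 2 :=
    Real.sq_sqrt (Finset.sum_nonneg fun n _ => sq_nonneg _)
  have hA0 : 0 ≤ A := Real.sqrt_nonneg _
  have hpos : ∀ n t, 0 ≤ ξ n t := fun n t => by linarith [hξ.2.1 n t]
  rcases hA0.eq_or_lt with h0 | h0
  · have hz : ∀ n ∈ s, a n = 0 := by
      have h1 : ∑ n ∈ s, a n ^ 2 = 0 := by rw [← hsq, ← h0]; norm_num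
      intro n hn
      have := (Finset.sum_eq_zero_iff_of_nonneg (fun i _ => sq_nonneg (a i))).1 h1 n hn
      exact pow_eq_zero_iff (two_ne_zero) |>.1 this
    have h2 : ∀ t, (∑ n ∈ s, (a n * ξ n t) ^ q) ^ (1 / q) = 0 := by
      intro t
      have : ∑ n ∈ s, (a n * ξ n t) ^ q = 0 := by
        refine Finset.sum_eq_zero fun n hn => ?_
        rw [hz n hn, zero_mul, Real.zero_rpow hq0.ne']
      rw [this, Real.zero_rpow (by positivity)]
    simp only [h2, integral_zero]
    rw [← h0]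
    simp
  · have hpt : ∀ t, (∑ n ∈ s, (a n * ξ n t) ^ q) ^ (1 / q) ≤
        A * (1 + ∑ n ∈ s, min ((a n / A * ξ n t) ^ q) (a n / A * ξ n t)) := by
      intro t
      have h1 := upper_pt q hq s (fun n => a n / A * ξ n t)
        (fun n => mul_nonneg (div_nonneg (ha n) hA0) (hpos n t))
      have h2 : (∑ n ∈ s, (a n * ξ n t) ^ q) = A ^ q * ∑ n ∈ s, (a n / A * ξ n t) ^ q := by
        rw [Finset.mul_sum]
        refine Finset.sum_congr rfl fun n _ => ?_
        rw [← Real.mul_rpow hA0 (mul_nonneg (div_nonneg (ha n) hA0) (hpos n t))]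
        congr 1
        field_simp
      rw [h2, Real.mul_rpow (by positivity) (Finset.sum_nonneg fun n _ => Real.rpow_nonneg
        (mul_nonneg (div_nonneg (ha n) hA0) (hpos n t)) q), ← Real.rpow_mul hA0,
        mul_one_div_cancel hq0.ne', Real.rpow_one]
      exact mul_le_mul_of_nonneg_left h1 hA0
    have hint : Integrable (fun t => A * (1 + ∑ n ∈ s,
        min ((a n / A * ξ n t) ^ q) (a n / A * ξ n t))) volume := by
      refine Integrable.const_mul ?_ A
      refine (integrable_const 1).add ?_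
      exact integrable_finset_sum _ fun n _ => (hK n (a n / A) (div_nonneg (ha n) hA0)).1
    refine (integral_mono_of_nonneg (Filter.Eventually.of_forall fun t => ?_) hint
      (Filter.Eventually.of_forall hpt)).trans ?_
    · exact Real.rpow_nonneg (Finset.sum_nonneg fun n _ =>
        Real.rpow_nonneg (mul_nonneg (ha n) (hpos n t)) q) _
    · rw [integral_const_mul, integral_add (integrable_const 1)
        (integrable_finset_sum _ fun n _ => (hK n (a n / A) (div_nonneg (ha n) hA0)).1),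
        integral_finset_sum _ fun n _ => (hK n (a n / A) (div_nonneg (ha n) hA0)).1]
      have h3 : ∑ n ∈ s, ∫ t, min ((a n / A * ξ n t) ^ q) (a n / A * ξ n t) ≤ K := by
        calc ∑ n ∈ s, ∫ t, min ((a n / A * ξ n t) ^ q) (a n / A * ξ n t)
            ≤ ∑ n ∈ s, K * (a n / A) ^ 2 := Finset.sum_le_sum fun n _ =>
              (hK n (a n / A) (div_nonneg (ha n) hA0)).2
          _ = K * ((∑ n ∈ s, a n ^ 2) / A ^ 2) := by
              rw [← Finset.mul_sum, Finset.sum_div]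
              congr 1
              refine Finset.sum_congr rfl fun n _ => ?_
              rw [div_pow]
          _ = K := by
              rw [← hsq, div_self (by positivity), mul_one]
      have h4 : ∫ (_ : unitInterval), (1 : ℝ) = 1 := by simp
      rw [h4]
      nlinarith

end JF2

namespace JF3

theorem lower (ξ : ℕ → unitInterval → ℝ) (hξ : Pareto ξ) (s : Finset ℕ) (a : ℕ → ℝ)
    (ha : ∀ n, 0 ≤ a n) (g : unitInterval → ℝ) (hg : Integrable g volume)
    (h : ∀ n ∈ s, ∀ t, a n * ξ n t ≤ g t) (h0 : ∀ t, 0 ≤ g t) :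
    1 / 2 * Real.sqrt (∑ n ∈ s, a n ^ 2) ≤ ∫ t, g t := by
  classical
  set A := Real.sqrt (∑ n ∈ s, a n ^ 2) with hA
  have hAnn : 0 ≤ A := Real.sqrt_nonneg _
  have hsumnn : 0 ≤ ∑ n ∈ s, a n ^ 2 := Finset.sum_nonneg fun _ _ => sq_nonneg _
  have hA2 : A ^ 2 = ∑ n ∈ s, a n ^ 2 := Real.sq_sqrt hsumnn
  rcases hAnn.eq_or_lt with hA0 | hApos
  · rw [← hA0, mul_zero]; exact integral_nonneg h0
  obtain ⟨hm, hge, hP1, hP2⟩ := hξ
  set E : ℕ → Set unitInterval := fun n => {t | A < a n * ξ n t} with hE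
  have hEm : ∀ n, MeasurableSet (E n) := fun n =>
    measurableSet_lt measurable_const ((hm n).const_mul (a n))
  set p : ℕ → ℝ := fun n => a n ^ 2 / A ^ 2 with hp
  have hp0 : ∀ n, 0 ≤ p n := fun n => by positivity
  have hle : ∀ n ∈ s, a n ≤ A := by
    intro n hn
    have h1 : a n ^ 2 ≤ A ^ 2 := by
      rw [hA2]; exact Finset.single_le_sum (f := fun n => a n ^ 2) (fun _ _ => sq_nonneg _) hn
    exact abs_le_of_sq_le_sq' h1 hAnn |>.2
  have hEpos : ∀ n, 0 < a n → E n = {t | A / a n < ξ n t} := by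
    intro n hn
    ext t
    simp only [hE, Set.mem_ofPred_eq]
    rw [div_lt_iff₀ hn, mul_comm]
  have hEzero : ∀ n, a n = 0 → E n = ∅ := by
    intro n hn
    ext t
    simp only [hE, Set.mem_ofPred_eq, hn, zero_mul, Set.mem_empty_iff_false, iff_false, not_lt]
    exact hAnn
  have hinv : ∀ n, 0 < a n → ((A / a n) ^ 2)⁻¹ = p n := by
    intro n hn
    simp only [hp]
    rw [div_pow, inv_div]
  have hPE : ∀ n ∈ s, (volume : Measure unitInterval).real (E n) = p n := by
    intro n hn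
    rcases (ha n).eq_or_lt with h1 | h1
    · rw [hEzero n h1.symm]
      simp only [measureReal_empty, hp, ← h1]
      norm_num
    · rw [hEpos n h1, hP1 n (A / a n) (by rw [le_div_iff₀ h1, one_mul]; exact hle n hn), hinv n h1]
  have hPE2 : ∀ n ∈ s, ∀ m ∈ s, (volume : Measure unitInterval).real (E n ∩ E m)
      ≤ p n * p m + (if n = m then p n else 0) := by
    intro n hn m hmm
    by_cases hnm : n = m
    · subst hnm
      rw [Set.inter_self, hPE n hn, if_pos rfl]
      nlinarith [hp0 n, mul_nonneg (hp0 n) (hp0 n)]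
    · rw [if_neg hnm, add_zero]
      rcases (ha n).eq_or_lt with h1 | h1
      · rw [hEzero n h1.symm, Set.empty_inter, measureReal_empty]
        exact mul_nonneg (hp0 n) (hp0 m)
      · rcases (ha m).eq_or_lt with h2 | h2
        · rw [hEzero m h2.symm, Set.inter_empty, measureReal_empty]
          exact mul_nonneg (hp0 n) (hp0 m)
        · rw [hEpos n h1, hEpos m h2]
          have := hP2 n m hnm (A / a n) (A / a m) (by rw [le_div_iff₀ h1, one_mul]; exact hle n hn)
            (by rw [le_div_iff₀ h2, one_mul]; exact hle m hmm)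
          rw [hinv n h1, hinv m h2] at this
          exact this.le
  have hsump : ∑ n ∈ s, p n = 1 := by
    simp only [hp]
    rw [← Finset.sum_div, ← hA2, div_self (by positivity)]
  set ind : ℕ → unitInterval → ℝ := fun n t => Set.indicator (E n) (fun _ => (1:ℝ)) t with hind
  have hindI : ∀ n, Integrable (ind n) volume := fun n =>
    (integrable_const (1:ℝ)).indicator (hEm n)
  have hprod : ∀ n m t, ind n t * ind m t = Set.indicator (E n ∩ E m) (fun _ => (1:ℝ)) t := by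
    intro n m t
    simp only [hind]
    by_cases h1 : t ∈ E n
    · by_cases h2 : t ∈ E m
      · have h3 : t ∈ E n ∩ E m := Set.mem_inter h1 h2
        rw [Set.indicator_of_mem h1, Set.indicator_of_mem h2, Set.indicator_of_mem h3]; ring
      · have h3 : t ∉ E n ∩ E m := fun h => h2 (Set.mem_of_mem_inter_right h)
        rw [Set.indicator_of_notMem h2, Set.indicator_of_notMem h3]; ring
    · have h3 : t ∉ E n ∩ E m := fun h => h1 (Set.mem_of_mem_inter_left h)
      rw [Set.indicator_of_notMem h1, Set.indicator_of_notMem h3]; ring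
  have hprodI : ∀ n m, Integrable (fun t => ind n t * ind m t) volume := by
    intro n m
    simp only [hprod]
    exact (integrable_const (1:ℝ)).indicator ((hEm n).inter (hEm m))
  have hN : ∀ t, A * (3 / 2 * ∑ n ∈ s, ind n t - 1 / 2 * ∑ n ∈ s, ∑ m ∈ s, ind n t * ind m t) ≤ g t := by
    intro t
    have hsq : ∑ n ∈ s, ∑ m ∈ s, ind n t * ind m t = (∑ n ∈ s, ind n t) ^ 2 := by
      rw [sq, Finset.sum_mul_sum]
    rw [hsq]
    have hcard : ∑ n ∈ s, ind n t = (((s.filter fun n => t ∈ E n).card : ℕ) : ℝ) := by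
      simp only [hind, Set.indicator_apply]
      rw [← Finset.sum_filter]
      simp
    rw [hcard]
    rcases Nat.eq_zero_or_pos (s.filter fun n => t ∈ E n).card with hk | hk
    · rw [hk]; simp; exact h0 t
    · obtain ⟨n, hn⟩ := Finset.card_pos.mp hk
      rw [Finset.mem_filter] at hn
      have hgt : A ≤ g t := le_trans (le_of_lt hn.2) (h n hn.1 t)
      set k := (s.filter fun n => t ∈ E n).card
      have hk1 : ((k:ℝ) - 1) * ((k:ℝ) - 2) ≥ 0 := by
        rcases Nat.lt_or_ge k 2 with h2 | h2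
        · have : k = 1 := by omega
          rw [this]; norm_num
        · have : (2:ℝ) ≤ k := by exact_mod_cast h2
          nlinarith
      have hle1 : 3 / 2 * (k:ℝ) - 1 / 2 * (k:ℝ) ^ 2 ≤ 1 := by nlinarith
      calc A * (3 / 2 * (k:ℝ) - 1 / 2 * (k:ℝ) ^ 2) ≤ A * 1 := mul_le_mul_of_nonneg_left hle1 hAnn
        _ = A := mul_one _
        _ ≤ g t := hgt
  have hI1 : Integrable (fun t => ∑ n ∈ s, ind n t) volume := integrable_finsetSum _ fun n _ => hindI n
  have hI2' : ∀ n, Integrable (fun t => ∑ m ∈ s, ind n t * ind m t) volume := fun n =>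
    integrable_finsetSum _ fun m _ => hprodI n m
  have hI2 : Integrable (fun t => ∑ n ∈ s, ∑ m ∈ s, ind n t * ind m t) volume :=
    integrable_finsetSum _ fun n _ => hI2' n
  have hint : ∫ t, A * (3 / 2 * ∑ n ∈ s, ind n t - 1 / 2 * ∑ n ∈ s, ∑ m ∈ s, ind n t * ind m t)
      = A * (3 / 2 * (∫ t, ∑ n ∈ s, ind n t) - 1 / 2 * ∫ t, ∑ n ∈ s, ∑ m ∈ s, ind n t * ind m t) := by
    rw [integral_const_mul, integral_sub (hI1.const_mul _) (hI2.const_mul _), integral_const_mul,
      integral_const_mul]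
  have e1 : ∫ t, ∑ n ∈ s, ind n t = 1 := by
    rw [integral_finsetSum _ fun n _ => hindI n, ← hsump]
    refine Finset.sum_congr rfl fun n hn => ?_
    simp only [hind]
    rw [integral_indicator_const _ (hEm n), hPE n hn, smul_eq_mul, mul_one]
  have e2 : ∫ t, ∑ n ∈ s, ∑ m ∈ s, ind n t * ind m t ≤ 2 := by
    rw [integral_finsetSum _ fun n _ => hI2' n]
    have : ∀ n ∈ s, ∫ t, ∑ m ∈ s, ind n t * ind m t ≤ ∑ m ∈ s, (p n * p m + (if n = m then p n else 0)) := by
      intro n hn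
      rw [integral_finsetSum _ fun m _ => hprodI n m]
      refine Finset.sum_le_sum fun m hmm => ?_
      simp only [hprod]
      rw [integral_indicator_const _ ((hEm n).inter (hEm m)), smul_eq_mul, mul_one]
      exact hPE2 n hn m hmm
    refine (Finset.sum_le_sum this).trans (le_of_eq ?_)
    have h3 : ∀ n ∈ s, ∑ m ∈ s, (p n * p m + (if n = m then p n else 0)) = 2 * p n := by
      intro n hn
      rw [Finset.sum_add_distrib, ← Finset.mul_sum, hsump, Finset.sum_ite_eq s n, if_pos hn]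
      ring
    rw [Finset.sum_congr rfl h3, ← Finset.mul_sum, hsump]; norm_num
  have hfin : ∫ t, A * (3 / 2 * ∑ n ∈ s, ind n t - 1 / 2 * ∑ n ∈ s, ∑ m ∈ s, ind n t * ind m t) ≤ ∫ t, g t :=
    integral_mono (((hI1.const_mul _).sub (hI2.const_mul _)).const_mul A) hg hN
  rw [hint, e1] at hfin
  nlinarith [hfin, e2, hApos]

end JF3

namespace JF4

section
variable (𝕜 : Type*) [RCLike 𝕜]

theorem exists_ops (X : Type*) [NormedAddCommGroup X] [NormedSpace 𝕜 X]
    (ξ : ℕ → unitInterval → ℝ) (hm : ∀ n, Measurable (ξ n)) (h1 : ∀ n t, 1 ≤ ξ n t)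
    (hi : ∀ n, Integrable (ξ n) volume) (T : ℕ → X →L[𝕜] X) (q c C : ℝ) (hq : 2 < q) (hc : 0 < c)
    (K : ℝ) (hK : 0 < K)
    (hup : ∀ (s : Finset ℕ) (a : ℕ → ℝ), (∀ n, 0 ≤ a n) →
      ∫ t, (∑ n ∈ s, (a n * ξ n t) ^ q) ^ (1 / q) ≤ K * Real.sqrt (∑ n ∈ s, a n ^ 2))
    (hlo : ∀ (s : Finset ℕ) (a : ℕ → ℝ), (∀ n, 0 ≤ a n) → ∀ g : unitInterval → ℝ,
      Integrable g volume → (∀ n ∈ s, ∀ t, a n * ξ n t ≤ g t) → (∀ t, 0 ≤ g t) →
      1 / 2 * Real.sqrt (∑ n ∈ s, a n ^ 2) ≤ ∫ t, g t)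
    (hT1 : ∀ (s : Finset ℕ) (x : ℕ → X), ∀ n ∈ s, c * ‖x n‖ ≤ ‖∑ n ∈ s, T n (x n)‖)
    (hT2 : ∀ (s : Finset ℕ) (x : ℕ → X),
      ‖∑ n ∈ s, T n (x n)‖ ≤ C * (∑ n ∈ s, ‖x n‖ ^ q) ^ (1 / q)) :
    ∃ (S : ℕ → X →L[𝕜] L1 X) (k : ℝ) (K' : ℝ), 0 < k ∧
      (∀ (s : Finset ℕ) (x : ℕ → X),
        k * Real.sqrt (∑ n ∈ s, ‖x n‖ ^ 2) ≤ ‖∑ n ∈ s, S n (x n)‖) ∧
      (∀ (s : Finset ℕ) (x : ℕ → X),
        ‖∑ n ∈ s, S n (x n)‖ ≤ K' * Real.sqrt (∑ n ∈ s, ‖x n‖ ^ 2)) := by
  classical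
  have hint : ∀ n (v : X), Integrable (fun t => ((ξ n t : ℝ) : 𝕜) • v) volume := fun n v =>
    (hi n).ofReal.smul_const v
  have hξ0 : ∀ n t, 0 ≤ ξ n t := fun n t => zero_le_one.trans (h1 n t)
  have hnorm : ∀ n t (v : X), ‖((ξ n t : ℝ) : 𝕜) • v‖ = ‖v‖ * ξ n t := by
    intro n t v
    rw [norm_smul, RCLike.norm_ofReal, abs_of_nonneg (hξ0 n t), mul_comm]
  let S0 : ∀ n : ℕ, X →ₗ[𝕜] L1 X := fun n =>
    { toFun := fun v => (hint n (T n v)).toL1 _
      map_add' := by
        intro v w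
        rw [← Integrable.toL1_add]
        rw [Integrable.toL1_eq_toL1_iff]
        exact ae_of_all _ fun t => by simp [smul_add]
      map_smul' := by
        intro k v
        rw [RingHom.id_apply, ← Integrable.toL1_smul']
        rw [Integrable.toL1_eq_toL1_iff]
        exact ae_of_all _ fun t => by
          simp only [map_smul, Pi.smul_apply]
          rw [smul_comm] }
  have hS0 : ∀ n v, S0 n v = (hint n (T n v)).toL1 _ := fun n v => rfl
  have hS0n : ∀ n v, ‖S0 n v‖ ≤ ((∫ t, ξ n t) * ‖T n‖) * ‖v‖ := by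
    intro n v
    rw [hS0, L1.norm_of_fun_eq_integral_norm]
    simp only [hnorm]
    rw [integral_const_mul]
    have h2 : 0 ≤ ∫ t, ξ n t := integral_nonneg (hξ0 n)
    calc ‖T n v‖ * ∫ t, ξ n t ≤ (‖T n‖ * ‖v‖) * ∫ t, ξ n t :=
          mul_le_mul_of_nonneg_right ((T n).le_opNorm v) h2
      _ = _ := by ring
  let S : ∀ n : ℕ, X →L[𝕜] L1 X := fun n =>
    (S0 n).mkContinuous ((∫ t, ξ n t) * ‖T n‖) (hS0n n)
  have hS : ∀ n v, S n v = (hint n (T n v)).toL1 _ := fun n v => rfl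
  have hFint : ∀ (s : Finset ℕ) (x : ℕ → X),
      Integrable (fun t => ∑ n ∈ s, ((ξ n t : ℝ) : 𝕜) • T n (x n)) volume := fun s x =>
    integrable_finsetSum _ fun n _ => hint n _
  have hsum : ∀ (s : Finset ℕ) (x : ℕ → X),
      ∑ n ∈ s, S n (x n) = (hFint s x).toL1 _ := by
    intro s x
    induction s using Finset.induction_on with
    | empty =>
      rw [Finset.sum_empty]
      symm
      simp only [Finset.sum_empty]
      exact Integrable.toL1_zero _
    | insert a s ha ih =>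
      rw [Finset.sum_insert ha, ih, hS, ← Integrable.toL1_add]
      rw [Integrable.toL1_eq_toL1_iff]
      exact ae_of_all _ fun t => by
        simp only [Pi.add_apply]
        rw [Finset.sum_insert ha]
  have hN : ∀ (s : Finset ℕ) (x : ℕ → X), ‖∑ n ∈ s, S n (x n)‖ =
      ∫ t, ‖∑ n ∈ s, T n (((ξ n t : ℝ) : 𝕜) • x n)‖ := by
    intro s x
    rw [hsum, L1.norm_of_fun_eq_integral_norm]
    simp only [map_smul]
  have hFint' : ∀ (s : Finset ℕ) (x : ℕ → X),
      Integrable (fun t => ‖∑ n ∈ s, T n (((ξ n t : ℝ) : 𝕜) • x n)‖) volume := by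
    intro s x
    have := (hFint s x).norm
    simpa only [map_smul] using this
  have hpow : ∀ (s : Finset ℕ) (y : ℕ → ℝ), (∀ n, 0 ≤ y n) →
      ∑ n ∈ s, (y n) ^ q ≤ (∑ n ∈ s, y n) ^ q := by
    intro s y hy
    induction s using Finset.induction_on with
    | empty =>
      simp only [Finset.sum_empty]
      rw [Real.zero_rpow (by linarith)]
    | insert a s ha ih =>
      rw [Finset.sum_insert ha, Finset.sum_insert ha]
      refine (add_le_add le_rfl ih).trans ?_
      exact Real.add_rpow_le_rpow_add (hy a) (Finset.sum_nonneg fun n _ => hy n) (by linarith)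
  refine ⟨S, c / 2, max C 0 * K, by linarith, ?_, ?_⟩
  · intro s x
    rw [hN]
    have h2 := hlo s (fun n => c * ‖x n‖) (fun n => mul_nonneg hc.le (norm_nonneg _))
      (fun t => ‖∑ n ∈ s, T n (((ξ n t : ℝ) : 𝕜) • x n)‖) (hFint' s x) (fun n hn t => by
        have h3 := hT1 s (fun n => ((ξ n t : ℝ) : 𝕜) • x n) n hn
        simp only [hnorm] at h3
        rw [mul_assoc]
        exact h3) (fun t => norm_nonneg _)
    have h3 : Real.sqrt (∑ n ∈ s, (c * ‖x n‖) ^ 2) = c * Real.sqrt (∑ n ∈ s, ‖x n‖ ^ 2) := by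
      simp only [mul_pow]
      rw [← Finset.mul_sum, Real.sqrt_mul (sq_nonneg c), Real.sqrt_sq hc.le]
    simp only [h3] at h2
    calc c / 2 * Real.sqrt (∑ n ∈ s, ‖x n‖ ^ 2) = 1 / 2 * (c * Real.sqrt (∑ n ∈ s, ‖x n‖ ^ 2)) := by
          ring
      _ ≤ _ := h2
  · intro s x
    rw [hN]
    have hC0 : 0 ≤ max C 0 := le_max_right _ _
    have hGm : Measurable fun t => (∑ n ∈ s, (‖x n‖ * ξ n t) ^ q) ^ (1 / q) :=
      (Finset.measurable_sum _ fun n _ => ((hm n).const_mul _).pow_const q).pow_const _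
    have hGi : Integrable (fun t => (∑ n ∈ s, (‖x n‖ * ξ n t) ^ q) ^ (1 / q)) volume := by
      refine Integrable.mono' (g := fun t => ∑ n ∈ s, ‖x n‖ * ξ n t)
        (integrable_finsetSum _ fun n _ => (hi n).const_mul _) hGm.aestronglyMeasurable
        (ae_of_all _ fun t => ?_)
      have hy : ∀ n, 0 ≤ ‖x n‖ * ξ n t := fun n => mul_nonneg (norm_nonneg _) (hξ0 n t)
      have hs0 : 0 ≤ ∑ n ∈ s, (‖x n‖ * ξ n t) ^ q :=
        Finset.sum_nonneg fun n _ => Real.rpow_nonneg (hy n) _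
      rw [Real.norm_eq_abs, abs_of_nonneg (Real.rpow_nonneg hs0 _)]
      have h4 := hpow s (fun n => ‖x n‖ * ξ n t) hy
      have h5 := Real.rpow_le_rpow hs0 h4 (by positivity : 0 ≤ 1 / q)
      refine h5.trans (le_of_eq ?_)
      rw [← Real.rpow_mul (Finset.sum_nonneg fun n _ => hy n), mul_one_div_cancel (by linarith),
        Real.rpow_one]
    have h2 : ∫ t, ‖∑ n ∈ s, T n (((ξ n t : ℝ) : 𝕜) • x n)‖ ≤
        ∫ t, max C 0 * (∑ n ∈ s, (‖x n‖ * ξ n t) ^ q) ^ (1 / q) := by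
      refine integral_mono (hFint' s x) (hGi.const_mul _) fun t => ?_
      have h3 := hT2 s (fun n => ((ξ n t : ℝ) : 𝕜) • x n)
      simp only [hnorm] at h3
      refine h3.trans (mul_le_mul_of_nonneg_right (le_max_left _ _) ?_)
      exact Real.rpow_nonneg (Finset.sum_nonneg fun n _ =>
        Real.rpow_nonneg (mul_nonneg (norm_nonneg _) (hξ0 n t)) _) _
    rw [integral_const_mul] at h2
    refine h2.trans ?_
    rw [mul_assoc]
    exact mul_le_mul_of_nonneg_left (hup s (fun n => ‖x n‖) fun n => norm_nonneg _) hC0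


end

end JF4

namespace JF5

section
variable (𝕜 : Type*) [RCLike 𝕜]

theorem copy_aux_hasSum {X : Type*} [NormedAddCommGroup X] (x : ell2 X) :
    HasSum (fun n => ‖x n‖ ^ 2) (‖x‖ ^ 2) := by
  have h0 : 0 < (2 : ℝ≥0∞).toReal := by norm_num
  have h1 := lp.hasSum_norm h0 x
  simpa using h1

theorem copy_aux_sqrt {X : Type*} [NormedAddCommGroup X] (x : ell2 X) :
    Filter.Tendsto (fun s : Finset ℕ => Real.sqrt (∑ n ∈ s, ‖x n‖ ^ 2)) Filter.atTop
      (nhds ‖x‖) := by
  have h1 : Filter.Tendsto (fun s : Finset ℕ => ∑ n ∈ s, ‖x n‖ ^ 2) Filter.atTop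
      (nhds (‖x‖ ^ 2)) := copy_aux_hasSum x
  have h2 := (Real.continuous_sqrt.tendsto (‖x‖ ^ 2)).comp h1
  rw [Real.sqrt_sq (norm_nonneg x)] at h2
  exact h2

theorem copy_of_ops (X Y : Type*) [NormedAddCommGroup X] [NormedSpace 𝕜 X]
    [NormedAddCommGroup Y] [NormedSpace 𝕜 Y] [CompleteSpace Y]
    (S : ℕ → X →L[𝕜] Y) (k K : ℝ) (hk : 0 < k)
    (h1 : ∀ (s : Finset ℕ) (x : ℕ → X),
        k * Real.sqrt (∑ n ∈ s, ‖x n‖ ^ 2) ≤ ‖∑ n ∈ s, S n (x n)‖)
    (h2 : ∀ (s : Finset ℕ) (x : ℕ → X),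
        ‖∑ n ∈ s, S n (x n)‖ ≤ K * Real.sqrt (∑ n ∈ s, ‖x n‖ ^ 2)) :
    Copy 𝕜 (ell2 X) Y := by
  have hsum : ∀ x : ell2 X, Summable (fun n => S n (x n)) := by
    intro x
    rw [summable_iff_vanishing_norm]
    intro ε hε
    have hK : 0 < |K| + 1 := by positivity
    have h3 := summable_iff_vanishing_norm.1 (copy_aux_hasSum x).summable
      ((ε / (|K| + 1)) ^ 2) (by positivity)
    obtain ⟨s, hs⟩ := h3
    refine ⟨s, fun t ht => ?_⟩
    have h4 := hs t ht
    have h5 : 0 ≤ ∑ n ∈ t, ‖x n‖ ^ 2 := Finset.sum_nonneg (fun n _ => sq_nonneg _)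
    rw [Real.norm_of_nonneg h5] at h4
    have h6 : Real.sqrt (∑ n ∈ t, ‖x n‖ ^ 2) < ε / (|K| + 1) := by
      rw [Real.sqrt_lt' (by positivity)]
      exact h4
    calc ‖∑ n ∈ t, S n (x n)‖ ≤ K * Real.sqrt (∑ n ∈ t, ‖x n‖ ^ 2) := h2 t x
      _ ≤ (|K| + 1) * Real.sqrt (∑ n ∈ t, ‖x n‖ ^ 2) := by
          apply mul_le_mul_of_nonneg_right _ (Real.sqrt_nonneg _)
          linarith [le_abs_self K]
      _ < (|K| + 1) * (ε / (|K| + 1)) := mul_lt_mul_of_pos_left h6 hK
      _ = ε := by field_simp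
  have hT : ∀ x : ell2 X, Filter.Tendsto (fun s : Finset ℕ => ∑ n ∈ s, S n (x n)) Filter.atTop
      (nhds (∑' n, S n (x n))) := fun x => (hsum x).hasSum
  have hu : ∀ x : ell2 X, ‖∑' n, S n (x n)‖ ≤ K * ‖x‖ := fun x =>
    le_of_tendsto_of_tendsto' (hT x).norm ((copy_aux_sqrt x).const_mul K) (fun s => h2 s x)
  have hl : ∀ x : ell2 X, k * ‖x‖ ≤ ‖∑' n, S n (x n)‖ := fun x =>
    le_of_tendsto_of_tendsto' ((copy_aux_sqrt x).const_mul k) (hT x).norm (fun s => h1 s x)
  let T : ell2 X →ₗ[𝕜] Y :=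
    { toFun := fun x => ∑' n, S n (x n)
      map_add' := by
        intro x y
        rw [← (hsum x).tsum_add (hsum y)]
        apply tsum_congr
        intro n
        rw [← map_add]
        rfl
      map_smul' := by
        intro c x
        rw [RingHom.id_apply, ← (hsum x).tsum_const_smul c]
        apply tsum_congr
        intro n
        rw [← map_smul]
        rfl }
  exact ⟨T.mkContinuous K hu, k, hk, fun z => hl z⟩


end

end JF5

namespace JF6

section
variable (𝕜 : Type*) [RCLike 𝕜]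

omit [RCLike 𝕜] in
theorem aux_term_le {X : Type*} [NormedAddCommGroup X] (q : ℝ) (hq : 0 < q) (s : Finset ℕ)
    (x : ℕ → X) (n : ℕ) (hn : n ∈ s) : ‖x n‖ ≤ (∑ n ∈ s, ‖x n‖ ^ q) ^ (1 / q) := by
  have h1 : ‖x n‖ ^ q ≤ ∑ n ∈ s, ‖x n‖ ^ q :=
    Finset.single_le_sum (f := fun n => ‖x n‖ ^ q) (fun i _ => by positivity) hn
  calc ‖x n‖ = (‖x n‖ ^ q) ^ (1 / q) := by
        rw [one_div, Real.rpow_rpow_inv (norm_nonneg _) hq.ne']
    _ ≤ _ := Real.rpow_le_rpow (by positivity) h1 (by positivity)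

theorem ops_of_lp (X : Type*) [NormedAddCommGroup X] [NormedSpace 𝕜 X] (p : ℝ≥0∞) [Fact (1 ≤ p)]
    (hp : 2 < p) (h : Copy 𝕜 (lp (fun _ : ℕ => X) p) X) :
    ∃ (T : ℕ → X →L[𝕜] X) (q c C : ℝ), 2 < q ∧ 0 < c ∧
      (∀ (s : Finset ℕ) (x : ℕ → X), ∀ n ∈ s, c * ‖x n‖ ≤ ‖∑ n ∈ s, T n (x n)‖) ∧
      (∀ (s : Finset ℕ) (x : ℕ → X),
        ‖∑ n ∈ s, T n (x n)‖ ≤ C * (∑ n ∈ s, ‖x n‖ ^ q) ^ (1 / q)) := by
  obtain ⟨T0, c, hc, hT⟩ := h
  have hp0 : p ≠ 0 := (lt_trans (by norm_num) hp).ne'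
  let T : ℕ → X →L[𝕜] X := fun n => T0.comp (lp.singleContinuousLinearMap 𝕜 (fun _ : ℕ => X) p n)
  have hsum : ∀ (s : Finset ℕ) (x : ℕ → X), ∑ n ∈ s, T n (x n) =
      T0 (∑ n ∈ s, lp.single p n (x n)) := by
    intro s x
    rw [map_sum]
    rfl
  have hval : ∀ (s : Finset ℕ) (x : ℕ → X) (m : ℕ),
      ((∑ n ∈ s, lp.single (E := fun _ : ℕ => X) p n (x n)) : lp (fun _ : ℕ => X) p) m =
        if m ∈ s then x m else 0 := by
    intro s x m
    rw [lp.coeFn_sum, Finset.sum_apply]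
    simp only [lp.coeFn_single]
    rw [Finset.sum_pi_single]
  have hlow : ∀ (s : Finset ℕ) (x : ℕ → X), ∀ n ∈ s, c * ‖x n‖ ≤ ‖∑ n ∈ s, T n (x n)‖ := by
    intro s x n hn
    rw [hsum]
    refine le_trans (mul_le_mul_of_nonneg_left ?_ hc.le) (hT _)
    have h1 := lp.norm_apply_le_norm hp0 (∑ n ∈ s, lp.single (E := fun _ : ℕ => X) p n (x n)) n
    rw [hval, if_pos hn] at h1
    exact h1
  by_cases htop : p = ⊤
  · subst htop
    refine ⟨T, 3, c, ‖T0‖, by norm_num, hc, hlow, ?_⟩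
    intro s x
    rw [hsum]
    refine le_trans (T0.le_opNorm _) (mul_le_mul_of_nonneg_left ?_ (norm_nonneg _))
    refine lp.norm_le_of_forall_le (by positivity) fun m => ?_
    rw [hval]
    split_ifs with hm
    · exact aux_term_le 3 (by norm_num) s x m hm
    · rw [norm_zero]; positivity
  · have hq : 2 < p.toReal := by
      have := (ENNReal.toReal_lt_toReal (by norm_num) htop).2 hp
      simpa using this
    refine ⟨T, p.toReal, c, ‖T0‖, hq, hc, hlow, ?_⟩
    intro s x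
    rw [hsum]
    refine le_trans (T0.le_opNorm _) (mul_le_mul_of_nonneg_left ?_ (norm_nonneg _))
    rw [← lp.norm_sum_single (E := fun _ : ℕ => X) (p := p) (by linarith) x s, one_div,
      Real.rpow_rpow_inv (norm_nonneg _) (by linarith)]

/-- the function `v` at `n` -/
noncomputable def sg0 {X : Type*} [NormedAddCommGroup X] (n : ℕ) (v : X) :
    ZeroAtInftyContinuousMap ℕ X where
  toFun := Pi.single n v
  continuous_toFun := continuous_of_discreteTopology
  zero_at_infty' := by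
    have h : ∀ᶠ m in Filter.cocompact ℕ, (0 : X) = (Pi.single n v : ℕ → X) m := by
      rw [Filter.cocompact_eq_cofinite]
      have : ∀ᶠ m in Filter.cofinite, m ≠ n := (Set.finite_singleton n).compl_mem_cofinite
      filter_upwards [this] with m hm
      rw [Pi.single_eq_of_ne hm]
    exact tendsto_const_nhds.congr' h

theorem sg0_apply {X : Type*} [NormedAddCommGroup X] (n : ℕ) (v : X) (m : ℕ) :
    sg0 n v m = (Pi.single n v : ℕ → X) m := rfl

theorem c0_norm_le {X : Type*} [NormedAddCommGroup X] (f : ZeroAtInftyContinuousMap ℕ X) (C : ℝ)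
    (hC : 0 ≤ C) (h : ∀ m, ‖f m‖ ≤ C) : ‖f‖ ≤ C := by
  rw [← ZeroAtInftyContinuousMap.norm_toBCF_eq_norm]
  exact (BoundedContinuousFunction.norm_le hC).2 h

theorem c0_le_norm {X : Type*} [NormedAddCommGroup X] (f : ZeroAtInftyContinuousMap ℕ X)
    (m : ℕ) : ‖f m‖ ≤ ‖f‖ := by
  rw [← ZeroAtInftyContinuousMap.norm_toBCF_eq_norm]
  exact BoundedContinuousFunction.norm_coe_le_norm f.toBCF m

noncomputable def sg0L {X : Type*} [NormedAddCommGroup X] [NormedSpace 𝕜 X] (n : ℕ) :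
    X →L[𝕜] ZeroAtInftyContinuousMap ℕ X :=
  LinearMap.mkContinuous
    { toFun := sg0 n
      map_add' := fun a b => by
        ext m
        rw [ZeroAtInftyContinuousMap.add_apply, sg0_apply, sg0_apply, sg0_apply, Pi.single_add]
        rfl
      map_smul' := fun a b => by
        ext m
        rw [RingHom.id_apply, ZeroAtInftyContinuousMap.smul_apply, sg0_apply, sg0_apply, Pi.single_smul]
        rfl } 1 (fun v => by
        rw [one_mul]
        refine c0_norm_le _ _ (norm_nonneg _) fun m => ?_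
        show ‖(Pi.single n v : ℕ → X) m‖ ≤ ‖v‖
        by_cases hm : m = n
        · subst hm; rw [Pi.single_eq_same]
        · rw [Pi.single_eq_of_ne hm, norm_zero]; exact norm_nonneg _)

theorem sg0L_apply {X : Type*} [NormedAddCommGroup X] [NormedSpace 𝕜 X] (n : ℕ) (v : X) :
    sg0L 𝕜 n v = sg0 n v := rfl

theorem c0_sum_apply {X : Type*} [NormedAddCommGroup X] (s : Finset ℕ)
    (F : ℕ → ZeroAtInftyContinuousMap ℕ X) (m : ℕ) : (∑ n ∈ s, F n) m = ∑ n ∈ s, F n m := by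
  classical
  induction s using Finset.induction_on with
  | empty => simp
  | insert a s ha ih =>
    rw [Finset.sum_insert ha, Finset.sum_insert ha, ZeroAtInftyContinuousMap.add_apply, ih]

theorem ops_of_c0 (X : Type*) [NormedAddCommGroup X] [NormedSpace 𝕜 X]
    (h : Copy 𝕜 (ZeroAtInftyContinuousMap ℕ X) X) :
    ∃ (T : ℕ → X →L[𝕜] X) (q c C : ℝ), 2 < q ∧ 0 < c ∧
      (∀ (s : Finset ℕ) (x : ℕ → X), ∀ n ∈ s, c * ‖x n‖ ≤ ‖∑ n ∈ s, T n (x n)‖) ∧
      (∀ (s : Finset ℕ) (x : ℕ → X),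
        ‖∑ n ∈ s, T n (x n)‖ ≤ C * (∑ n ∈ s, ‖x n‖ ^ q) ^ (1 / q)) := by
  obtain ⟨T0, c, hc, hT⟩ := h
  let T : ℕ → X →L[𝕜] X := fun n => T0.comp (sg0L 𝕜 n)
  have hsum : ∀ (s : Finset ℕ) (x : ℕ → X), ∑ n ∈ s, T n (x n) =
      T0 (∑ n ∈ s, sg0 n (x n)) := by
    intro s x
    rw [map_sum]
    rfl
  have hval : ∀ (s : Finset ℕ) (x : ℕ → X) (m : ℕ),
      (∑ n ∈ s, sg0 n (x n)) m = if m ∈ s then x m else 0 := by
    intro s x m
    rw [c0_sum_apply]
    simp only [sg0_apply]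
    rw [Finset.sum_pi_single]
  refine ⟨T, 3, c, ‖T0‖, by norm_num, hc, ?_, ?_⟩
  · intro s x n hn
    rw [hsum]
    refine le_trans (mul_le_mul_of_nonneg_left ?_ hc.le) (hT _)
    have h1 := c0_le_norm (∑ n ∈ s, sg0 n (x n)) n
    rw [hval, if_pos hn] at h1
    exact h1
  · intro s x
    rw [hsum]
    refine le_trans (T0.le_opNorm _) (mul_le_mul_of_nonneg_left ?_ (norm_nonneg _))
    refine c0_norm_le _ _ (by positivity) fun m => ?_
    rw [hval]
    split_ifs with hm
    · exact aux_term_le 3 (by norm_num) s x m hm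
    · rw [norm_zero]; positivity

end

end JF6

namespace JF8

section
variable (𝕜 : Type*) [RCLike 𝕜]

theorem copy_lp_lp (Y : Type*) [NormedAddCommGroup Y] [NormedSpace 𝕜 Y] (p : ℝ≥0∞)
    [Fact (1 ≤ p)] :
    Copy 𝕜 (lp (fun _ : ℕ => lp (fun _ : ℕ => Y) p) p) (lp (fun _ : ℕ => Y) p) := by
  have hp1 : 1 ≤ p := Fact.out
  have hp0 : p ≠ 0 := (zero_lt_one.trans_le hp1).ne'
  have key : ∀ z : lp (fun _ : ℕ => lp (fun _ : ℕ => Y) p) p,
      ∃ h : Memℓp (fun k : ℕ => ((z (Nat.unpair k).1 : lp (fun _ : ℕ => Y) p) : ℕ → Y)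
        (Nat.unpair k).2) p, ‖(⟨_, h⟩ : lp (fun _ : ℕ => Y) p)‖ = ‖z‖ := by
    intro z
    rcases eq_or_ne p ∞ with hp | hp
    · subst hp
      have h : Memℓp (fun k : ℕ => ((z (Nat.unpair k).1 : lp (fun _ : ℕ => Y) ∞) : ℕ → Y)
        (Nat.unpair k).2) ∞ := by
        rw [memℓp_infty_iff]
        refine ⟨‖z‖, ?_⟩
        rintro _ ⟨k, rfl⟩
        exact (lp.norm_apply_le_norm ENNReal.top_ne_zero (z (Nat.unpair k).1) (Nat.unpair k).2).trans
          (lp.norm_apply_le_norm ENNReal.top_ne_zero z _)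
      refine ⟨h, le_antisymm ?_ ?_⟩
      · apply lp.norm_le_of_forall_le (norm_nonneg _)
        intro k
        exact (lp.norm_apply_le_norm ENNReal.top_ne_zero (z (Nat.unpair k).1) (Nat.unpair k).2).trans
          (lp.norm_apply_le_norm ENNReal.top_ne_zero z _)
      · apply lp.norm_le_of_forall_le (norm_nonneg _)
        intro i
        apply lp.norm_le_of_forall_le (norm_nonneg _)
        intro j
        have h1 := lp.norm_apply_le_norm ENNReal.top_ne_zero
          (⟨_, h⟩ : lp (fun _ : ℕ => Y) ∞) (Nat.pair i j)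
        simpa using h1
    · have hr : 0 < p.toReal := ENNReal.toReal_pos hp0 hp
      have hs1 : ∀ i, Summable fun j => ‖((z i : lp (fun _ : ℕ => Y) p) : ℕ → Y) j‖ ^ p.toReal :=
        fun i => (memℓp_gen_iff hr).mp (lp.memℓp (z i))
      have hn1 : ∀ i, ‖z i‖ ^ p.toReal
          = ∑' j, ‖((z i : lp (fun _ : ℕ => Y) p) : ℕ → Y) j‖ ^ p.toReal :=
        fun i => lp.norm_rpow_eq_tsum hr (z i)
      have hs2 : Summable fun i => ‖z i‖ ^ p.toReal := (memℓp_gen_iff hr).mp (lp.memℓp z)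
      have hs : Summable fun x : ℕ × ℕ =>
          ‖((z x.1 : lp (fun _ : ℕ => Y) p) : ℕ → Y) x.2‖ ^ p.toReal := by
        rw [summable_prod_of_nonneg (fun x => by positivity)]
        refine ⟨hs1, ?_⟩
        simp only [← hn1]
        exact hs2
      have hsk : Summable fun k : ℕ =>
          ‖((z (Nat.unpair k).1 : lp (fun _ : ℕ => Y) p) : ℕ → Y) (Nat.unpair k).2‖ ^ p.toReal :=
        (Nat.pairEquiv.symm.summable_iff (f := fun x : ℕ × ℕ =>
          ‖((z x.1 : lp (fun _ : ℕ => Y) p) : ℕ → Y) x.2‖ ^ p.toReal)).mpr hs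
      have h : Memℓp (fun k : ℕ => ((z (Nat.unpair k).1 : lp (fun _ : ℕ => Y) p) : ℕ → Y)
        (Nat.unpair k).2) p := (memℓp_gen_iff hr).mpr hsk
      refine ⟨h, ?_⟩
      have e1 : ‖(⟨_, h⟩ : lp (fun _ : ℕ => Y) p)‖ ^ p.toReal = ‖z‖ ^ p.toReal := by
        rw [lp.norm_rpow_eq_tsum hr, lp.norm_rpow_eq_tsum hr]
        have e2 := Nat.pairEquiv.symm.tsum_eq (fun x : ℕ × ℕ =>
          ‖((z x.1 : lp (fun _ : ℕ => Y) p) : ℕ → Y) x.2‖ ^ p.toReal)
        rw [hs.tsum_prod] at e2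
        simp only [← hn1] at e2
        rw [← e2]
        rfl
      exact Real.rpow_left_injOn hr.ne' (norm_nonneg _) (norm_nonneg _) e1
  choose hmem hnorm using key
  let T : lp (fun _ : ℕ => lp (fun _ : ℕ => Y) p) p →ₗ[𝕜] lp (fun _ : ℕ => Y) p :=
    { toFun := fun z => ⟨_, hmem z⟩
      map_add' := by
        intro x y
        ext k
        rfl
      map_smul' := by
        intro c x
        ext k
        rfl }
  refine ⟨T.mkContinuous 1 (fun z => by rw [one_mul]; exact (hnorm z).le), 1, one_pos,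
    fun z => by rw [one_mul]; exact (hnorm z).ge⟩


end

end JF8

namespace JF9

section
variable (𝕜 : Type*) [RCLike 𝕜]

theorem c0_nle972 {E : Type*} [NormedAddCommGroup E] (g : ZeroAtInftyContinuousMap ℕ E) (x : ℕ) :
    ‖g x‖ ≤ ‖g‖ := by
  rw [← ZeroAtInftyContinuousMap.norm_toBCF_eq_norm]
  exact g.toBCF.norm_coe_le_norm x

theorem c0_le972 {E : Type*} [NormedAddCommGroup E] (g : ZeroAtInftyContinuousMap ℕ E) (C : ℝ)
    (hC : 0 ≤ C) (h : ∀ x, ‖g x‖ ≤ C) : ‖g‖ ≤ C := by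
  rw [← ZeroAtInftyContinuousMap.norm_toBCF_eq_norm]
  exact (BoundedContinuousFunction.norm_le hC).mpr h

theorem c0_fin972 {E : Type*} [NormedAddCommGroup E] (g : ZeroAtInftyContinuousMap ℕ E) (ε : ℝ)
    (hε : 0 < ε) : {x | ¬ ‖g x‖ < ε}.Finite := by
  have h := ZeroAtInftyContinuousMapClass.zero_at_infty g
  rw [Metric.tendsto_nhds] at h
  have h2 := h ε hε
  rw [Filter.cocompact_eq_cofinite, Filter.eventually_cofinite] at h2
  simpa using h2

/-- the map -/
noncomputable def c0T972 {Y : Type*} [NormedAddCommGroup Y]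
    (f : ZeroAtInftyContinuousMap ℕ (ZeroAtInftyContinuousMap ℕ Y)) :
    ZeroAtInftyContinuousMap ℕ Y where
  toFun k := f (Nat.unpair k).1 (Nat.unpair k).2
  continuous_toFun := continuous_of_discreteTopology
  zero_at_infty' := by
    rw [Metric.tendsto_nhds]
    intro ε hε
    rw [Filter.cocompact_eq_cofinite, Filter.eventually_cofinite]
    refine ((c0_fin972 f ε hε).biUnion
      (fun i _ => (c0_fin972 (f i) ε hε).image (Nat.pair i))).subset ?_
    intro k hk
    have hk' : ¬ ‖f (Nat.unpair k).1 (Nat.unpair k).2‖ < ε := by simpa using hk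
    simp only [Set.mem_iUnion]
    refine ⟨(Nat.unpair k).1, ?_, ⟨(Nat.unpair k).2, hk', Nat.pair_unpair k⟩⟩
    intro hlt
    exact hk' (lt_of_le_of_lt (c0_nle972 (f (Nat.unpair k).1) _) hlt)

theorem copy_c0_c0 (Y : Type*) [NormedAddCommGroup Y] [NormedSpace 𝕜 Y] :
    Copy 𝕜 (ZeroAtInftyContinuousMap ℕ (ZeroAtInftyContinuousMap ℕ Y))
      (ZeroAtInftyContinuousMap ℕ Y) := by
  let L : ZeroAtInftyContinuousMap ℕ (ZeroAtInftyContinuousMap ℕ Y) →ₗ[𝕜]
      ZeroAtInftyContinuousMap ℕ Y :=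
    { toFun := c0T972
      map_add' := fun f g => rfl
      map_smul' := fun t f => rfl }
  have hL : ∀ f, ‖L f‖ ≤ 1 * ‖f‖ := by
    intro f
    rw [one_mul]
    refine c0_le972 _ _ (norm_nonneg _) (fun k => ?_)
    exact (c0_nle972 (f (Nat.unpair k).1) _).trans (c0_nle972 f _)
  refine ⟨L.mkContinuous 1 hL, 1, one_pos, fun f => ?_⟩
  rw [one_mul]
  refine c0_le972 _ _ (norm_nonneg _) (fun i => c0_le972 _ _ (norm_nonneg _) (fun j => ?_))
  have h := c0_nle972 (L.mkContinuous 1 hL f) (Nat.pair i j)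
  have e : (L.mkContinuous 1 hL f) (Nat.pair i j) = f i j := by
    change f (Nat.unpair (Nat.pair i j)).1 (Nat.unpair (Nat.pair i j)).2 = f i j
    rw [Nat.unpair_pair]
  rwa [e] at h


end

end JF9

/-- Constant functions. -/
theorem copy_const (𝕜 : Type*) [RCLike 𝕜] (X : Type*) [NormedAddCommGroup X] [NormedSpace 𝕜 X]
    (h : Copy 𝕜 (ell2 X) X) : Copy 𝕜 (ell2 X) (L1 X) := by
  obtain ⟨T, c, hc, h⟩ := h
  refine ⟨(Lp.constL 1 (volume : Measure unitInterval) 𝕜).comp T, c, hc, fun z => ?_⟩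
  have : ‖(Lp.constL 1 (volume : Measure unitInterval) 𝕜).comp T z‖ = ‖T z‖ := by
    show ‖Lp.const 1 (volume : Measure unitInterval) (T z)‖ = ‖T z‖
    rw [Lp.norm_const' 1 volume (T z) one_ne_zero ENNReal.one_ne_top]
    simp
  rw [this]
  exact h z

/-- General criterion. -/
theorem criterion (𝕜 : Type*) [RCLike 𝕜] (X : Type*) [NormedAddCommGroup X] [NormedSpace 𝕜 X] [CompleteSpace X]
    (T : ℕ → X →L[𝕜] X) (q c C : ℝ) (hq : 2 < q) (hc : 0 < c)
    (hT1 : ∀ (s : Finset ℕ) (x : ℕ → X), ∀ n ∈ s, c * ‖x n‖ ≤ ‖∑ n ∈ s, T n (x n)‖)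
    (hT2 : ∀ (s : Finset ℕ) (x : ℕ → X),
      ‖∑ n ∈ s, T n (x n)‖ ≤ C * (∑ n ∈ s, ‖x n‖ ^ q) ^ (1 / q)) :
    Copy 𝕜 (ell2 X) (L1 X) := by
  obtain ⟨ξ, hξ⟩ := JF1.exists_pareto
  obtain ⟨K, hK, hup⟩ := JF2.upper ξ hξ q hq
  obtain ⟨S, k, K', hk, h1, h2⟩ := JF4.exists_ops 𝕜 X ξ hξ.1 hξ.2.1 (JF2.integrable_pareto ξ hξ) T q c C hq
    hc K hK hup (fun s a ha g hg h h0 => JF3.lower ξ hξ s a ha g hg h h0) hT1 hT2
  exact JF5.copy_of_ops 𝕜 X (L1 X) S k K' hk h1 h2

end Pool.Agent.Helper808.Ell2
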